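import Pool.Agent.Lib.helper19.StatFilter

set_option autoImplicit false

namespace Pool.Agent.Results.MP_aa1901_an.No

open Filter Set

theorem result : ∃ F : Filter ℕ, F.NeBot ∧ F ≤ cofinite ∧
    (¬ ∃ D : ℕ → Set ℕ, Pairwise (fun m n => Disjoint (D m) (D n)) ∧ (∀ n, (D n)ᶜ ∈ F) ∧
      ∀ M : Set ℕ, M.Infinite → (⋃ n ∈ M, D n)ᶜ ∉ F) ∧
    ∀ μ : Set ℕ → ℝ, (∀ A, 0 ≤ μ A) → (∀ A B, Disjoint A B → μ (A ∪ B) = μ A + μ B) →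
      μ univ = 1 → (∀ k, μ {k} = 0) → ¬ ∀ A, A ∈ F ↔ μ A = 1 := by
  obtain ⟨F, h1, h2, h3, h4⟩ := Pool.Agent.Lib.helper19.StatFilter.exists_poor
  exact ⟨F, h1, h2, h3.not_congl, fun μ a b c d => h4 μ ⟨a, b, c, d⟩⟩

end Pool.Agent.Results.MP_aa1901_an.No
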